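import Pool.Agent.EN.SizesZ

/-!
The size exponent of the self-avoiding walk on the hexagonal lattice is `3 / 4`, with constants: the means of the squared
end-to-end distance, of the squared radius of gyration and of the squared monomer-endpoint distance of the uniformly random
`n`-step walk lie between `c n ^ (3 / 2)` and `C n ^ (3 / 2)` for every `n ≥ 1`.
-/

set_option autoImplicit false
open scoped Classical

namespace Pool.Agent.Held82.AllSizes2

open Pool.Agent.MS.ResSizes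

theorem result :
    ∃ c C : ℝ, 0 < c ∧ ∀ n : ℕ, 1 ≤ n →
      (c * (n : ℝ) ^ (3 / 2 : ℝ) ≤ mean n Re ∧ mean n Re ≤ C * (n : ℝ) ^ (3 / 2 : ℝ)) ∧
      (c * (n : ℝ) ^ (3 / 2 : ℝ) ≤ mean n Rg ∧ mean n Rg ≤ C * (n : ℝ) ^ (3 / 2 : ℝ)) ∧
      (c * (n : ℝ) ^ (3 / 2 : ℝ) ≤ mean n Rm ∧ mean n Rm ≤ C * (n : ℝ) ^ (3 / 2 : ℝ)) :=
  NTSZ.sizes_M

end Pool.Agent.Held82.AllSizes2

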